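import Pool.Agent.H225.HN.MSb

/-!
# HN-MS, third part (helper225 for helper466): decomposition of the smoothed sum
-/

set_option autoImplicit false

namespace Pool.Agent.H225.HN

open Complex MeasureTheory Set Filter Topology
open Pool.Agent.H466.HP
open H370 (PP pterm)
open H370.A2 (lamC lamC_norm)
open ArithmeticFunction (vonMangoldt)

theorem G_cont (h : S_Z1) (U t : ℝ) : ContinuousOn (fun u : ℝ => G u t) (Icc 0 U) := by
  have e : (fun u : ℝ => G u t) =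
      fun u : ℝ => ∑' b : Zr, (mu b : ℂ) * cexp (u * (b : ℂ)) * gw t b := rfl
  rw [e]
  refine continuousOn_tsum (u := fun b : Zr => Real.exp (U / 2) * Real.exp (1 / 8) *
    (mu b * Real.exp (-((b : ℂ).im - t) ^ 2 / 2))) (fun b => ?_)
    ((Pool.Agent.H328.HP.smG h t).mul_left _) fun b u hu => ?_
  · exact Continuous.continuousOn (by fun_prop)
  · have h1 := Pool.Agent.H328.HP.gw_le t b.2
    have h2 := Pool.Agent.H328.HP.mu_nonneg (b : ℂ)
    have h3 : ‖cexp (u * (b : ℂ))‖ ≤ Real.exp (U / 2) := by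
      rw [Complex.norm_exp, re_ofReal_mul]
      apply Real.exp_le_exp.2
      have h4 := (abs_lt.1 (Pool.Agent.H328.HP.re_lt b.2)).2
      have h5 : u * (b : ℂ).re ≤ u * (1 / 2) := mul_le_mul_of_nonneg_left h4.le hu.1
      linarith [hu.2]
    rw [norm_mul, norm_mul, Complex.norm_real, Real.norm_of_nonneg h2]
    calc mu b * ‖cexp (u * (b : ℂ))‖ * ‖gw t b‖ ≤ mu b * Real.exp (U / 2) *
        (Real.exp (1 / 8) * Real.exp (-((b : ℂ).im - t) ^ 2 / 2)) := by gcongr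
      _ = _ := by ring

/-- the prime side of the smoothed sum -/
theorem side_eq (m r U t : ℝ) (X : ℕ) :
    ∫ u in (0 : ℝ)..U, (tr m r u : ℂ) * (cexp (-(I * u * t)) *
      ∑ n ∈ Finset.Icc 1 X, pterm lamC u t n) =
    ∑ n ∈ Finset.Icc 2 X, bp m r U n * cexp (-(I * t * Real.log n)) := by
  have hwc := tr_cont m r
  have e1 : ∀ u : ℝ, (tr m r u : ℂ) * (cexp (-(I * u * t)) *
      ∑ n ∈ Finset.Icc 1 X, pterm lamC u t n) = ∑ n ∈ Finset.Icc 2 X,
        (lamC n * (Real.sqrt n : ℂ)⁻¹ * cexp (-(I * t * Real.log n))) *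
          ((tr m r u * Real.exp (-(u - Real.log n) ^ 2 / 2) : ℝ) : ℂ) := by
    intro u
    have h1 : ∑ n ∈ Finset.Icc 1 X, pterm lamC u t n = ∑ n ∈ Finset.Icc 2 X, pterm lamC u t n := by
      symm
      refine Finset.sum_subset (Finset.Icc_subset_Icc_left (by norm_num)) fun n hn hn' => ?_
      have hn1 : n = 1 := by
        rw [Finset.mem_Icc] at hn hn'
        omega
      subst hn1
      unfold pterm lamC
      simp
    rw [h1, Finset.mul_sum, Finset.mul_sum]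
    refine Finset.sum_congr rfl fun n hn => ?_
    unfold pterm
    have h2 : cexp (-(I * u * t)) * cexp (I * t * (u - Real.log n)) =
        cexp (-(I * t * Real.log n)) := by
      rw [← Complex.exp_add]
      congr 1
      ring
    rw [Complex.ofReal_mul]
    linear_combination ((tr m r u : ℂ) * lamC n * (Real.sqrt n : ℂ)⁻¹ *
      (Real.exp (-(u - Real.log n) ^ 2 / 2) : ℂ)) * h2
  simp_rw [e1]
  rw [intervalIntegral.integral_finsetSum fun n _ =>
    Continuous.intervalIntegrable (by fun_prop) _ _]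
  refine Finset.sum_congr rfl fun n _ => ?_
  rw [intervalIntegral.integral_const_mul, intervalIntegral.integral_ofReal]
  unfold bp aa
  ring

/-- the prime powers -/
theorem np_sum : ∃ C : ℝ, 0 < C ∧ ∀ (X : ℕ) (m r U t : ℝ), 0 < r → 0 ≤ m - r → m + r ≤ U →
    ‖∑ n ∈ (Finset.Icc 2 X).filter (fun n => ¬ n.Prime),
      bp m r U n * cexp (-(I * t * Real.log n))‖ ≤ C * (2 * r) := by
  obtain ⟨C, hC, hN⟩ := np_unif
  refine ⟨C, hC, fun X m r U t hr h0 hU => ?_⟩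
  have hU0 : 0 ≤ U := by linarith
  have hwc := tr_cont m r
  refine (norm_sum_le _ _).trans ?_
  have h1 : ∑ n ∈ (Finset.Icc 2 X).filter (fun n => ¬ n.Prime),
      ‖bp m r U n * cexp (-(I * t * Real.log n))‖ =
      ∫ u in (0 : ℝ)..U, tr m r u * ∑ n ∈ (Finset.Icc 2 X).filter (fun n => ¬ n.Prime),
        vonMangoldt n * (Real.sqrt n)⁻¹ * Real.exp (-(u - Real.log n) ^ 2 / 2) := by
    have e1 : ∀ u : ℝ, tr m r u * ∑ n ∈ (Finset.Icc 2 X).filter (fun n => ¬ n.Prime),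
        vonMangoldt n * (Real.sqrt n)⁻¹ * Real.exp (-(u - Real.log n) ^ 2 / 2) =
        ∑ n ∈ (Finset.Icc 2 X).filter (fun n => ¬ n.Prime),
          (vonMangoldt n * (Real.sqrt n)⁻¹) *
            (tr m r u * Real.exp (-(u - Real.log n) ^ 2 / 2)) := by
      intro u
      rw [Finset.mul_sum]
      exact Finset.sum_congr rfl fun n _ => by ring
    simp_rw [e1]
    rw [intervalIntegral.integral_finsetSum fun n _ =>
      Continuous.intervalIntegrable (by fun_prop) _ _]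
    refine Finset.sum_congr rfl fun n _ => ?_
    rw [intervalIntegral.integral_const_mul, norm_mul, bp_norm hU0]
    have e2 : (-(I * (t : ℂ) * (Real.log n : ℂ))) = ((-(t * Real.log n) : ℝ) : ℂ) * I := by
      push_cast
      ring
    rw [e2, Complex.norm_exp_ofReal_mul_I, mul_one]
    rfl
  rw [h1]
  have h2 : ∫ u in (0 : ℝ)..U, tr m r u * ∑ n ∈ (Finset.Icc 2 X).filter (fun n => ¬ n.Prime),
        vonMangoldt n * (Real.sqrt n)⁻¹ * Real.exp (-(u - Real.log n) ^ 2 / 2) ≤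
      ∫ u in (0 : ℝ)..U, C * tr m r u := by
    refine intervalIntegral.integral_mono_on hU0
      (Continuous.intervalIntegrable (by fun_prop) _ _)
      (Continuous.intervalIntegrable (by fun_prop) _ _) fun u hu => ?_
    rw [mul_comm]
    exact mul_le_mul_of_nonneg_right (hN X u hu.1) (tr_nonneg m r u)
  rw [intervalIntegral.integral_const_mul] at h2
  exact h2.trans (mul_le_mul_of_nonneg_left (tr_total hr h0 hU) hC.le)

theorem exp_one' (u t : ℝ) : ‖cexp (-(I * u * t))‖ = 1 := by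
  have e2 : (-(I * (u : ℂ) * (t : ℂ))) = ((-(u * t) : ℝ) : ℂ) * I := by
    push_cast
    ring
  rw [e2, Complex.norm_exp_ofReal_mul_I]

/-- the decomposition -/
theorem decomp (hZ : S_Z1) : ∃ C : ℝ, 0 < C ∧ ∀ (X : ℕ) (m r U t L D C1 k : ℝ),
    0 < r → 0 ≤ m - r → m + r ≤ U → 0 ≤ D → m + r + D ≤ Real.log (X + 1) → 0 ≤ L → 0 ≤ C1 →
    0 ≤ k → k ≤ 1 →
    (∀ u, 0 ≤ u → u ≤ U → ‖G u t - (k : ℂ) * (L * cexp (I * u * t) * Real.exp (-u ^ 2 / 2) -
      PP lamC u t)‖ ≤ C1) →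
    k * ‖Pp m r U X t‖ ≤ ‖∫ u in (0 : ℝ)..U, (tr m r u : ℂ) * (cexp (-(I * u * t)) * G u t)‖ +
      (C + C1 + L * Real.exp (-(m - r) ^ 2 / 2) +
        2 * (∑' n : ℕ, 1 / (n : ℝ) ^ 2) * (Real.exp (4 + 2 * (m + r)) * Real.exp (-D ^ 2 / 4))) *
        (2 * r) := by
  classical
  obtain ⟨C, hC, hNP⟩ := np_sum
  refine ⟨C, hC, fun X m r U t L D C1 k hr h0 hU hD hX hL hC1 hk0 hk1 hG => ?_⟩
  have hU0 : 0 ≤ U := by linarith
  have hwc := tr_cont m r
  have ha : ∀ n, ‖lamC n‖ ≤ vonMangoldt n := fun n => (lamC_norm n).le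
  have hζ0 : 0 ≤ ∑' n : ℕ, 1 / (n : ℝ) ^ 2 := tsum_nonneg fun n => by positivity
  obtain ⟨E, hE⟩ : ∃ E : ℝ → ℂ, E = fun u : ℝ => cexp (-(I * u * t)) := ⟨_, rfl⟩
  have hEc : Continuous E := by
    rw [hE]
    fun_prop
  have hE1 : ∀ u, ‖E u‖ = 1 := fun u => by
    rw [hE]
    exact exp_one' u t
  obtain ⟨R, hR⟩ : ∃ R : ℝ → ℂ, R = fun u => G u t -
    (k : ℂ) * (L * cexp (I * u * t) * Real.exp (-u ^ 2 / 2) - PP lamC u t) := ⟨_, rfl⟩
  have hGc := G_cont hZ U t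
  have hPc := Pool.Agent.H870.HP.PP_contOn U t
  have hRc : ContinuousOn R (Icc 0 U) := by
    rw [hR]
    refine hGc.sub (continuousOn_const.mul (ContinuousOn.sub ?_ hPc))
    exact Continuous.continuousOn (by fun_prop)
  have hii : ∀ g : ℝ → ℂ, ContinuousOn g (Icc 0 U) →
      IntervalIntegrable (fun u => (tr m r u : ℂ) * g u) volume 0 U := by
    intro g hg
    apply ContinuousOn.intervalIntegrable
    rw [uIcc_of_le hU0]
    exact (Continuous.continuousOn (by fun_prop)).mul hg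
  -- the four pieces
  have hb1 : ‖∫ u in (0 : ℝ)..U, (tr m r u : ℂ) * (E u * R u)‖ ≤ C1 * (2 * r) := by
    refine tr_bound hr h0 hU hC1 fun u hu1 hu2 => ?_
    rw [norm_mul, hE1, one_mul, hR]
    exact hG u (by linarith) (by linarith)
  have hb2 : ‖∫ u in (0 : ℝ)..U, (tr m r u : ℂ) * ((L : ℂ) * Real.exp (-u ^ 2 / 2))‖ ≤
      (L * Real.exp (-(m - r) ^ 2 / 2)) * (2 * r) := by
    refine tr_bound hr h0 hU (by positivity) fun u hu1 hu2 => ?_
    rw [norm_mul, Complex.norm_real, Complex.norm_real, Real.norm_of_nonneg hL,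
      Real.norm_of_nonneg (Real.exp_pos _).le]
    apply mul_le_mul_of_nonneg_left _ hL
    apply Real.exp_le_exp.2
    have : (m - r) ^ 2 ≤ u ^ 2 := pow_le_pow_left₀ h0 hu1 2
    linarith
  have hsc : Continuous fun u : ℝ => ∑ n ∈ Finset.Icc 1 X, pterm lamC u t n := by
    unfold pterm
    fun_prop
  have hb3 : ‖∫ u in (0 : ℝ)..U, (tr m r u : ℂ) * (E u * (PP lamC u t -
      ∑ n ∈ Finset.Icc 1 X, pterm lamC u t n))‖ ≤
      (2 * (∑' n : ℕ, 1 / (n : ℝ) ^ 2) * (Real.exp (4 + 2 * (m + r)) * Real.exp (-D ^ 2 / 4))) *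
        (2 * r) := by
    refine tr_bound hr h0 hU (by positivity) fun u hu1 hu2 => ?_
    rw [norm_mul, hE1, one_mul]
    have h2 := H370.PP_trunc ha u t D X hD (by linarith)
    refine h2.trans ?_
    have h6 : Real.exp (4 + 2 * u) ≤ Real.exp (4 + 2 * (m + r)) :=
      Real.exp_le_exp.2 (by linarith)
    gcongr
  have hb4 := hNP X m r U t hr h0 hU
  have hside := side_eq m r U t X
  -- the identity
  have hid : ∫ u in (0 : ℝ)..U, (tr m r u : ℂ) * (E u * G u t) =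
      (∫ u in (0 : ℝ)..U, (tr m r u : ℂ) * (E u * R u)) +
      (k : ℂ) * (∫ u in (0 : ℝ)..U, (tr m r u : ℂ) * ((L : ℂ) * Real.exp (-u ^ 2 / 2))) -
      (k : ℂ) * (∫ u in (0 : ℝ)..U, (tr m r u : ℂ) * (E u * (PP lamC u t -
        ∑ n ∈ Finset.Icc 1 X, pterm lamC u t n))) -
      (k : ℂ) * (∫ u in (0 : ℝ)..U, (tr m r u : ℂ) * (E u *
        ∑ n ∈ Finset.Icc 1 X, pterm lamC u t n)) := by
    rw [← intervalIntegral.integral_const_mul, ← intervalIntegral.integral_const_mul,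
      ← intervalIntegral.integral_const_mul, ← intervalIntegral.integral_add,
      ← intervalIntegral.integral_sub, ← intervalIntegral.integral_sub]
    · refine intervalIntegral.integral_congr fun u _ => ?_
      have h1 : E u * cexp (I * u * t) = 1 := by
        rw [hE]
        simp only
        rw [← Complex.exp_add]
        have : -(I * (u : ℂ) * t) + I * u * t = 0 := by ring
        rw [this, Complex.exp_zero]
      rw [hR]
      simp only
      linear_combination ((k : ℂ) * (tr m r u : ℂ) * L * Real.exp (-u ^ 2 / 2)) * h1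
    · exact ((hii _ (hEc.continuousOn.mul hRc)).add
        ((hii _ (Continuous.continuousOn (by fun_prop))).const_mul _)).sub
        ((hii _ (hEc.continuousOn.mul (hPc.sub hsc.continuousOn))).const_mul _)
    · exact (hii _ (hEc.mul hsc).continuousOn).const_mul _
    · exact (hii _ (hEc.continuousOn.mul hRc)).add
        ((hii _ (Continuous.continuousOn (by fun_prop))).const_mul _)
    · exact (hii _ (hEc.continuousOn.mul (hPc.sub hsc.continuousOn))).const_mul _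
    · exact hii _ (hEc.continuousOn.mul hRc)
    · exact (hii _ (Continuous.continuousOn (by fun_prop))).const_mul _
  have hE' : ∀ u : ℝ, cexp (-(I * u * t)) = E u := fun u => by rw [hE]
  simp only [hE'] at hside ⊢
  rw [hside] at hid
  have hsplit : ∑ n ∈ Finset.Icc 2 X, bp m r U n * cexp (-(I * t * Real.log n)) =
      Pp m r U X t + ∑ n ∈ (Finset.Icc 2 X).filter (fun n => ¬ n.Prime),
        bp m r U n * cexp (-(I * t * Real.log n)) := by
    unfold Pp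
    rw [Pr_eq, Finset.sum_filter_add_sum_filter_not]
  rw [hsplit] at hid
  obtain ⟨J, hJ⟩ : ∃ J, J = ∫ u in (0 : ℝ)..U, (tr m r u : ℂ) * (E u * G u t) := ⟨_, rfl⟩
  obtain ⟨J1, hJ1⟩ : ∃ J1, J1 = ∫ u in (0 : ℝ)..U, (tr m r u : ℂ) * (E u * R u) := ⟨_, rfl⟩
  obtain ⟨J2, hJ2⟩ : ∃ J2, J2 = ∫ u in (0 : ℝ)..U, (tr m r u : ℂ) *
    ((L : ℂ) * Real.exp (-u ^ 2 / 2)) := ⟨_, rfl⟩
  obtain ⟨J3, hJ3⟩ : ∃ J3, J3 = ∫ u in (0 : ℝ)..U, (tr m r u : ℂ) * (E u * (PP lamC u t -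
    ∑ n ∈ Finset.Icc 1 X, pterm lamC u t n)) := ⟨_, rfl⟩
  obtain ⟨J4, hJ4⟩ : ∃ J4, J4 = ∑ n ∈ (Finset.Icc 2 X).filter (fun n => ¬ n.Prime),
    bp m r U n * cexp (-(I * t * Real.log n)) := ⟨_, rfl⟩
  rw [← hJ1] at hb1
  rw [← hJ2] at hb2
  rw [← hJ3] at hb3
  rw [← hJ4] at hb4
  rw [← hJ, ← hJ1, ← hJ2, ← hJ3, ← hJ4] at hid
  rw [← hJ]
  have hk : (k : ℂ) * Pp m r U X t = J1 + (k : ℂ) * J2 - (k : ℂ) * J3 - (k : ℂ) * J4 - J := by
    rw [hid]
    ring
  have hn : k * ‖Pp m r U X t‖ = ‖J1 + (k : ℂ) * J2 - (k : ℂ) * J3 - (k : ℂ) * J4 - J‖ := by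
    rw [← hk, norm_mul, Complex.norm_real, Real.norm_of_nonneg hk0]
  have hkn : ∀ z : ℂ, ‖(k : ℂ) * z‖ ≤ ‖z‖ := by
    intro z
    rw [norm_mul, Complex.norm_real, Real.norm_of_nonneg hk0]
    exact mul_le_of_le_one_left (norm_nonneg _) hk1
  rw [hn]
  calc ‖J1 + (k : ℂ) * J2 - (k : ℂ) * J3 - (k : ℂ) * J4 - J‖ ≤
      ‖J1 + (k : ℂ) * J2 - (k : ℂ) * J3 - (k : ℂ) * J4‖ + ‖J‖ := norm_sub_le _ _
    _ ≤ ‖J1 + (k : ℂ) * J2 - (k : ℂ) * J3‖ + ‖(k : ℂ) * J4‖ + ‖J‖ := by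
        gcongr
        exact norm_sub_le _ _
    _ ≤ ‖J1 + (k : ℂ) * J2‖ + ‖(k : ℂ) * J3‖ + ‖(k : ℂ) * J4‖ + ‖J‖ := by
        gcongr
        exact norm_sub_le _ _
    _ ≤ ‖J1‖ + ‖(k : ℂ) * J2‖ + ‖(k : ℂ) * J3‖ + ‖(k : ℂ) * J4‖ + ‖J‖ := by
        gcongr
        exact norm_add_le _ _
    _ ≤ ‖J1‖ + ‖J2‖ + ‖J3‖ + ‖J4‖ + ‖J‖ := by
        gcongr
        · exact hkn _
        · exact hkn _
        · exact hkn _
    _ ≤ _ := by
        linarith

end Pool.Agent.H225.HN
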