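import Pool.Agent.H466.HN.Stm5
import Pool.Agent.H466.HP.XEF
import Pool.Agent.H354.HP.Z1
import Pool.Agent.H225.HN.MSc

/-!
# HN-MS (helper225 for helper466): the exponential sum over the zeros is not small on a set of
positive proportion
-/

set_option autoImplicit false

namespace Pool.Agent.H225.HN

open Complex MeasureTheory Set Filter Topology
open Pool.Agent.H466.HP
open Pool.Agent.H466.HN (psi SG S_MS)
open H370 (PP pterm)
open H370.A2 (lamC lamC_norm)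

theorem k_bounds : 1 / 3 ≤ 1 / Real.sqrt (2 * Real.pi) ∧ 1 / Real.sqrt (2 * Real.pi) ≤ 1 := by
  have h3 := Real.pi_gt_three
  have h4 := Real.pi_lt_four
  have h1 : 1 ≤ Real.sqrt (2 * Real.pi) := by
    rw [Real.one_le_sqrt]
    linarith
  have h2 : Real.sqrt (2 * Real.pi) ≤ 3 := by
    rw [Real.sqrt_le_left (by norm_num)]
    linarith
  constructor
  · exact one_div_le_one_div_of_le (by linarith) h2
  · rw [div_le_one (by linarith)]
    exact h1

theorem SG_eq (T W t : ℝ) : SG T W t = ∫ u in (0 : ℝ)..(Real.log T / 16),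
    (tr (3 * Real.log T / 128) (Real.log T / (2 * W)) u : ℂ) *
      (cexp (-(I * u * t)) * G u t) := by
  unfold SG
  refine intervalIntegral.integral_congr fun u _ => ?_
  have e : psi T W u = tr (3 * Real.log T / 128) (Real.log T / (2 * W)) u := rfl
  simp only [e]
  ring

theorem small1 {L : ℝ} (hL : 8192 ≤ L) {x : ℝ} (hx : L / 64 ≤ x) :
    L * Real.exp (-x ^ 2 / 2) ≤ 1 := by
  have h1 : L ≤ Real.exp L := by linarith [Real.add_one_le_exp L]
  have h2 : (L / 64) ^ 2 ≤ x ^ 2 := pow_le_pow_left₀ (by linarith) hx 2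
  calc L * Real.exp (-x ^ 2 / 2) ≤ Real.exp L * Real.exp (-x ^ 2 / 2) :=
        mul_le_mul_of_nonneg_right h1 (Real.exp_pos _).le
    _ = Real.exp (L + -x ^ 2 / 2) := by rw [Real.exp_add]
    _ ≤ 1 := by
        rw [Real.exp_le_one_iff]
        nlinarith

theorem small2 {c L : ℝ} (hc : 0 ≤ c) (hL : 4096 * (c + 5) ≤ L) {x : ℝ} (hx : x ≤ L / 32) :
    c * (Real.exp (4 + 2 * x) * Real.exp (-(L / 32) ^ 2 / 4)) ≤ 1 := by
  have h1 : c ≤ Real.exp c := by linarith [Real.add_one_le_exp c]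
  calc c * (Real.exp (4 + 2 * x) * Real.exp (-(L / 32) ^ 2 / 4)) ≤
      Real.exp c * (Real.exp (4 + 2 * x) * Real.exp (-(L / 32) ^ 2 / 4)) :=
        mul_le_mul_of_nonneg_right h1 (by positivity)
    _ = Real.exp (c + (4 + 2 * x + -(L / 32) ^ 2 / 4)) := by
        rw [← Real.exp_add, ← Real.exp_add]
    _ ≤ 1 := by
        rw [Real.exp_le_one_iff]
        nlinarith

theorem ms : S_MS := by
  obtain ⟨C0, hC0, hA⟩ := A_low
  obtain ⟨C, hC, hdec⟩ := decomp Pool.Agent.H354.HP.z1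
  obtain ⟨C1, T1, hC1, hT1, hEF⟩ := Pool.Agent.H588.HP.ef Pool.Agent.H354.HP.z1
  obtain ⟨ζ2, hζ2⟩ : ∃ ζ2 : ℝ, ζ2 = ∑' n : ℕ, 1 / (n : ℝ) ^ 2 := ⟨_, rfl⟩
  have hζ0 : 0 ≤ ζ2 := by
    rw [hζ2]
    exact tsum_nonneg fun n => by positivity
  rw [← hζ2] at hdec
  obtain ⟨K, hK⟩ : ∃ K : ℝ, K = C + C1 + 2 := ⟨_, rfl⟩
  have hK0 : 0 < K := by linarith
  obtain ⟨k, hk⟩ : ∃ k : ℝ, k = 1 / Real.sqrt (2 * Real.pi) := ⟨_, rfl⟩
  have hkb := k_bounds
  rw [← hk] at hkb
  refine ⟨1 / 768, 1 / 128, max 64 ((768 * K) ^ 2), by norm_num, by norm_num, le_max_left _ _,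
    fun W hW => ?_⟩
  have hW64 : 64 ≤ W := (le_max_left _ _).trans hW
  have hWK : (768 * K) ^ 2 ≤ W := (le_max_right _ _).trans hW
  have hW0 : 0 < W := by linarith
  have hsW : 768 * K ≤ Real.sqrt W := Real.le_sqrt_of_sq_le hWK
  have hsW0 : 0 < Real.sqrt W := Real.sqrt_pos.2 hW0
  have hsW2 : Real.sqrt W ^ 2 = W := Real.sq_sqrt hW0.le
  refine ⟨max T1 (Real.exp (8192 + 4096 * (2 * ζ2 + 5) + 2 * W * C0)), hT1.trans (le_max_left _ _),
    fun T hT => ?_⟩
  have hTT1 : T1 ≤ T := (le_max_left _ _).trans hT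
  have hTe : Real.exp (8192 + 4096 * (2 * ζ2 + 5) + 2 * W * C0) ≤ T := (le_max_right _ _).trans hT
  have hT10 : 10 ≤ T := hT1.trans hTT1
  have hT0 : 0 < T := by linarith
  obtain ⟨L, hL⟩ : ∃ L, L = Real.log T := ⟨_, rfl⟩
  have hWC0 : 0 ≤ 2 * W * C0 := by positivity
  have hLb : 8192 + 4096 * (2 * ζ2 + 5) + 2 * W * C0 ≤ L := by
    rw [hL, Real.le_log_iff_exp_le hT0]
    exact hTe
  have hL1 : 8192 ≤ L := by linarith
  have hL2 : 4096 * (2 * ζ2 + 5) ≤ L := by linarith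
  have hL3 : 2 * W * C0 ≤ L := by linarith
  have hL0 : 0 < L := by linarith
  obtain ⟨m, hm⟩ : ∃ m, m = 3 * L / 128 := ⟨_, rfl⟩
  obtain ⟨r, hr⟩ : ∃ r, r = L / (2 * W) := ⟨_, rfl⟩
  have hr0 : 0 < r := by
    rw [hr]
    positivity
  have hrC : C0 ≤ r := by
    rw [hr, le_div_iff₀ (by positivity)]
    linarith
  have hrL : r ≤ L / 128 := by
    rw [hr, div_le_div_iff₀ (by positivity) (by norm_num)]
    nlinarith
  have hmr : L / 64 ≤ m - r := by rw [hm]; linarith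
  have hmr' : m + r ≤ L / 32 := by rw [hm]; linarith
  have hmU : m + r ≤ L / 16 := by linarith
  have h0 : 0 ≤ m - r := by linarith
  -- the length
  obtain ⟨N, hN⟩ : ∃ N : ℕ, N = ⌊Real.exp (L / 16)⌋₊ := ⟨_, rfl⟩
  have hN1 : Real.exp (L / 16) < N + 1 := by
    rw [hN]
    exact Nat.lt_floor_add_one _
  have hN2 : (N : ℝ) ≤ Real.exp (L / 16) := by
    rw [hN]
    exact Nat.floor_le (Real.exp_pos _).le
  have hexp1 : 1 ≤ Real.exp (L / 16) := Real.one_le_exp (by linarith)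
  have hNone : 1 ≤ N := by
    rw [hN, Nat.one_le_floor_iff]
    exact hexp1
  have hNr : (1 : ℝ) ≤ N := by exact_mod_cast hNone
  have hlogN1 : L / 16 ≤ Real.log (N + 1) := by
    rw [Real.le_log_iff_exp_le (by positivity)]
    exact hN1.le
  have hlogN : L / 32 ≤ Real.log N := by
    have h1 : Real.log (N + 1) ≤ Real.log (2 * N) :=
      Real.log_le_log (by positivity) (by linarith)
    rw [Real.log_mul (by norm_num) (by positivity)] at h1
    have h2 : Real.log 2 ≤ 1 := by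
      have := Real.log_two_lt_d9
      linarith
    linarith
  have hN8 : ((N : ℝ) + 1) ^ 8 ≤ T := by
    have h1 : (N : ℝ) + 1 ≤ 2 * Real.exp (L / 16) := by linarith
    have h2 : Real.exp (L / 16) ^ 8 = Real.exp (L / 2) := by
      rw [← Real.exp_nat_mul]
      congr 1
      push_cast
      ring
    have h3 : 256 ≤ Real.exp (L / 2) := by
      have := Real.add_one_le_exp (L / 2)
      linarith
    have h4 : Real.exp (L / 2) * Real.exp (L / 2) = T := by
      rw [← Real.exp_add, add_halves, hL, Real.exp_log hT0]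
    calc ((N : ℝ) + 1) ^ 8 ≤ (2 * Real.exp (L / 16)) ^ 8 :=
          pow_le_pow_left₀ (by positivity) h1 8
      _ = 256 * Real.exp (L / 2) := by
          rw [mul_pow, h2]
          norm_num
      _ ≤ Real.exp (L / 2) * Real.exp (L / 2) :=
          mul_le_mul_of_nonneg_right h3 (Real.exp_pos _).le
      _ = T := h4
  have hN16 : 16 * (N : ℝ) ^ 2 ≤ T := by
    have h1 : (64 : ℝ) ≤ ((N : ℝ) + 1) ^ 6 := by
      have : (2 : ℝ) ^ 6 ≤ ((N : ℝ) + 1) ^ 6 := pow_le_pow_left₀ (by norm_num) (by linarith) 6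
      linarith
    have h2 : ((N : ℝ) + 1) ^ 8 = ((N : ℝ) + 1) ^ 6 * ((N : ℝ) + 1) ^ 2 := by ring
    have h3 : (N : ℝ) ^ 2 ≤ ((N : ℝ) + 1) ^ 2 := pow_le_pow_left₀ (by positivity) (by linarith) 2
    have h4 : 64 * ((N : ℝ) + 1) ^ 2 ≤ ((N : ℝ) + 1) ^ 6 * ((N : ℝ) + 1) ^ 2 :=
      mul_le_mul_of_nonneg_right h1 (by positivity)
    have h5 : 0 ≤ ((N : ℝ) + 1) ^ 2 := by positivity
    linarith
  -- the mass
  obtain ⟨A, hAd⟩ : ∃ A, A = ∑ p ∈ Pr N, ‖bp m r (L / 16) p‖ ^ 2 := ⟨_, rfl⟩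
  have hAlow : 9 / 400 * (m * r) ≤ A := by
    rw [hAd]
    exact hA N m r (L / 16) hNone hrC h0 hmU (hmr'.trans hlogN)
  have hAL : (L / (128 * Real.sqrt W)) ^ 2 ≤ A / 4 := by
    have e1 : (L / (128 * Real.sqrt W)) ^ 2 = 1 / 16384 * (L ^ 2 / W) := by
      rw [div_pow, mul_pow, hsW2]
      field_simp
      norm_num
    have e2 : 9 / 400 * (m * r) = 27 / 102400 * (L ^ 2 / W) := by
      rw [hm, hr]
      field_simp
      norm_num
    have e3 : 0 ≤ L ^ 2 / W := by positivity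
    rw [e1]
    rw [e2] at hAlow
    linarith
  have hA0 : 0 < A := by
    have : 0 < (L / (128 * Real.sqrt W)) ^ 2 := by positivity
    linarith
  have h2 : T * A / 2 ≤ ∫ t in T..(2 * T), ‖Pp m r (L / 16) N t‖ ^ 2 := by
    refine le_trans ?_ (Pp_two hT0.le)
    rw [← hAd]
    nlinarith
  have h4 : ∫ t in T..(2 * T), (‖Pp m r (L / 16) N t‖ ^ 2) ^ 2 ≤ 8 * T * A ^ 2 := by
    rw [hAd]
    exact Pp_four (by linarith) hN8
  have hPc := Pp_cont m r (L / 16) N
  have hpz := pz hT0 hA0 (f := fun t => ‖Pp m r (L / 16) N t‖ ^ 2) (by fun_prop) h2 h4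
  refine (measure_mono ?_).trans hpz
  rintro t ⟨ht, hSG⟩
  refine ⟨ht, ?_⟩
  by_contra hcon
  rw [not_lt] at hcon
  have hP : L / (128 * Real.sqrt W) ≤ ‖Pp m r (L / 16) N t‖ := by
    by_contra hlt
    rw [not_le] at hlt
    have := pow_lt_pow_left₀ hlt (norm_nonneg _) (two_ne_zero)
    linarith
  have hd := hdec N m r (L / 16) t L (L / 32) C1 k hr0 h0 hmU (by linarith) (by linarith) hL0.le
    hC1.le (by linarith) hkb.2 (by
      intro u hu0 hu1
      rw [hk, hL]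
      exact hEF T hTT1 t u ht.1 ht.2 hu0 (by rw [← hL]; linarith))
  have hs1 := small1 hL1 hmr
  have hs2 := small2 (c := 2 * ζ2) (by positivity) hL2 hmr'
  have hSG' : ‖∫ u in (0 : ℝ)..(L / 16), (tr m r u : ℂ) * (cexp (-(I * u * t)) * G u t)‖ <
      1 / 768 * (L / Real.sqrt W) := by
    rw [hm, hr, hL, ← SG_eq]
    exact hSG
  have hbr : (C + C1 + L * Real.exp (-(m - r) ^ 2 / 2) +
      2 * ζ2 * (Real.exp (4 + 2 * (m + r)) * Real.exp (-(L / 32) ^ 2 / 4))) * (2 * r) ≤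
      1 / 768 * (L / Real.sqrt W) := by
    have e1 : C + C1 + L * Real.exp (-(m - r) ^ 2 / 2) +
      2 * ζ2 * (Real.exp (4 + 2 * (m + r)) * Real.exp (-(L / 32) ^ 2 / 4)) ≤ K := by
      rw [hK]
      linarith
    have e2 : K * (2 * r) = K / Real.sqrt W * (L / Real.sqrt W) := by
      rw [hr, div_mul_div_comm, ← sq, hsW2]
      field_simp
    have e3 : K / Real.sqrt W ≤ 1 / 768 := by
      rw [div_le_div_iff₀ hsW0 (by norm_num)]
      linarith
    have e4 : 0 ≤ L / Real.sqrt W := by positivity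
    calc _ ≤ K * (2 * r) := mul_le_mul_of_nonneg_right e1 (by linarith)
      _ = K / Real.sqrt W * (L / Real.sqrt W) := e2
      _ ≤ _ := mul_le_mul_of_nonneg_right e3 e4
  have hkP : 1 / 384 * (L / Real.sqrt W) ≤ k * ‖Pp m r (L / 16) N t‖ := by
    have e1 : 1 / 384 * (L / Real.sqrt W) = 1 / 3 * (L / (128 * Real.sqrt W)) := by
      field_simp
      norm_num
    rw [e1]
    exact mul_le_mul hkb.1 hP (by positivity) (by linarith)
  linarith

end Pool.Agent.H225.HN
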