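import Pool.Agent.H466.HP.Stm3
import Pool.Agent.H328.HP.E2
import Pool.Agent.H870.HP.DM
import Pool.Agent.H181.HP.DExp
import Pool.Graph.R_seed8.Helper923.HMertens

/-!
# HN-MS, first part (helper225 for helper466): the coefficients
-/

set_option autoImplicit false

namespace Pool.Agent.H225.HN

open Complex MeasureTheory Set Filter Topology
open Pool.Agent.H466.HP
open H370 (PP pterm)
open H370.A2 (lamC lamC_norm)
open ArithmeticFunction (vonMangoldt)
open Pool.Agent.TH850.UR (gauss_integrable gauss_total win)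

/-! ### the triangle -/

/-- triangle -/
noncomputable def tr (m r u : ℝ) : ℝ := max 0 (1 - |u - m| / r)

theorem tr_cont (m r : ℝ) : Continuous (tr m r) := by
  unfold tr
  exact continuous_const.max (by fun_prop)

theorem tr_nonneg (m r u : ℝ) : 0 ≤ tr m r u := le_max_left _ _

theorem tr_le {m r : ℝ} (hr : 0 < r) (u : ℝ) : tr m r u ≤ 1 := by
  unfold tr
  refine max_le zero_le_one ?_
  have : 0 ≤ |u - m| / r := by positivity
  linarith

theorem tr_zero {m r u : ℝ} (hr : 0 < r) (h : r ≤ |u - m|) : tr m r u = 0 := by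
  unfold tr
  apply max_eq_left
  have : 1 ≤ |u - m| / r := (one_le_div hr).2 h
  linarith

theorem tr_low {m r u : ℝ} (hr : 0 < r) (h : |u - m| ≤ 3 / 4 * r) : 1 / 4 ≤ tr m r u := by
  unfold tr
  refine le_trans ?_ (le_max_right _ _)
  have : |u - m| / r ≤ 3 / 4 := (div_le_iff₀ hr).2 h
  linarith

theorem tr_total {m r U : ℝ} (hr : 0 < r) (h0 : 0 ≤ m - r) (hU : m + r ≤ U) :
    ∫ u in (0 : ℝ)..U, tr m r u ≤ 2 * r := by
  have hc := tr_cont m r
  have hi : ∀ a b : ℝ, IntervalIntegrable (tr m r) volume a b := fun a b =>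
    hc.intervalIntegrable a b
  have e1 : ∫ u in (0 : ℝ)..(m - r), tr m r u = 0 := by
    have h1 : ∫ u in (0 : ℝ)..(m - r), tr m r u = ∫ _u in (0 : ℝ)..(m - r), (0 : ℝ) := by
      refine intervalIntegral.integral_congr fun u hu => ?_
      rw [uIcc_of_le h0] at hu
      apply tr_zero hr
      rw [abs_sub_comm]
      refine le_trans ?_ (le_abs_self _)
      linarith [hu.2]
    rw [h1, intervalIntegral.integral_zero]
  have e3 : ∫ u in (m + r)..U, tr m r u = 0 := by
    have h1 : ∫ u in (m + r)..U, tr m r u = ∫ _u in (m + r)..U, (0 : ℝ) := by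
      refine intervalIntegral.integral_congr fun u hu => ?_
      rw [uIcc_of_le hU] at hu
      apply tr_zero hr
      refine le_trans ?_ (le_abs_self _)
      linarith [hu.1]
    rw [h1, intervalIntegral.integral_zero]
  have e2 : ∫ u in (m - r)..(m + r), tr m r u ≤ 2 * r := by
    have h1 : ∫ u in (m - r)..(m + r), tr m r u ≤ ∫ _u in (m - r)..(m + r), (1 : ℝ) :=
      intervalIntegral.integral_mono_on (by linarith) (hi _ _)
        (continuous_const.intervalIntegrable _ _) fun u _ => tr_le hr u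
    rw [intervalIntegral.integral_const, smul_eq_mul] at h1
    linarith
  rw [← intervalIntegral.integral_add_adjacent_intervals (hi 0 (m - r)) (hi (m - r) U),
    ← intervalIntegral.integral_add_adjacent_intervals (hi (m - r) (m + r)) (hi (m + r) U),
    e1, e3]
  linarith

/-- integrals against the triangle -/
theorem tr_bound {m r U B : ℝ} (hr : 0 < r) (h0 : 0 ≤ m - r) (hU : m + r ≤ U) (hB : 0 ≤ B)
    {g : ℝ → ℂ} (h : ∀ u, m - r ≤ u → u ≤ m + r → ‖g u‖ ≤ B) :
    ‖∫ u in (0 : ℝ)..U, (tr m r u : ℂ) * g u‖ ≤ B * (2 * r) := by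
  have hc := tr_cont m r
  have h1 : ‖∫ u in (0 : ℝ)..U, (tr m r u : ℂ) * g u‖ ≤ ∫ u in (0 : ℝ)..U, B * tr m r u := by
    refine intervalIntegral.norm_integral_le_of_norm_le (by linarith) ?_
      ((continuous_const.mul hc).intervalIntegrable _ _)
    refine Eventually.of_forall fun u _ => ?_
    rw [norm_mul, Complex.norm_real, Real.norm_of_nonneg (tr_nonneg m r u)]
    by_cases hu : r ≤ |u - m|
    · rw [tr_zero hr hu, zero_mul, mul_zero]
    · push Not at hu
      rw [abs_lt] at hu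
      have h2 := h u (by linarith) (by linarith)
      rw [mul_comm]
      exact mul_le_mul_of_nonneg_right h2 (tr_nonneg m r u)
  rw [intervalIntegral.integral_const_mul] at h1
  exact h1.trans (mul_le_mul_of_nonneg_left (tr_total hr h0 hU) hB)

/-- the coefficient -/
noncomputable def aa (m r U v : ℝ) : ℝ :=
  ∫ u in (0 : ℝ)..U, tr m r u * Real.exp (-(u - v) ^ 2 / 2)

theorem aa_nonneg {m r U : ℝ} (hU : 0 ≤ U) (v : ℝ) : 0 ≤ aa m r U v :=
  intervalIntegral.integral_nonneg hU fun u _ => mul_nonneg (tr_nonneg _ _ _) (Real.exp_pos _).le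

theorem aa_low {m r U v : ℝ} (hr : 4 ≤ r) (h0 : 0 ≤ m - r) (hU : m + r ≤ U)
    (hv : |v - m| ≤ r / 2) : 3 / 10 ≤ aa m r U v := by
  have hc := tr_cont m r
  have hf : Continuous fun u : ℝ => tr m r u * Real.exp (-(u - v) ^ 2 / 2) := by fun_prop
  rw [abs_le] at hv
  have h1 : ∫ u in (v - 1)..(v + 1), tr m r u * Real.exp (-(u - v) ^ 2 / 2) ≤ aa m r U v := by
    unfold aa
    refine intervalIntegral.integral_mono_interval (by linarith) (by linarith) (by linarith)
      (Eventually.of_forall fun u => mul_nonneg (tr_nonneg _ _ _) (Real.exp_pos _).le)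
      (hf.intervalIntegrable _ _)
  have h2 : ∫ _u in (v - 1)..(v + 1), (1 / 4 : ℝ) * Real.exp (-(1 / 2)) ≤
      ∫ u in (v - 1)..(v + 1), tr m r u * Real.exp (-(u - v) ^ 2 / 2) := by
    refine intervalIntegral.integral_mono_on (by linarith)
      (continuous_const.intervalIntegrable _ _) (hf.intervalIntegrable _ _) fun u hu => ?_
    have h3 : 1 / 4 ≤ tr m r u := by
      apply tr_low (by linarith)
      rw [abs_le]
      constructor <;> linarith [hu.1, hu.2]
    have h4 : Real.exp (-(1 / 2)) ≤ Real.exp (-(u - v) ^ 2 / 2) := by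
      apply Real.exp_le_exp.2
      have : (u - v) ^ 2 ≤ 1 := by
        have h5 : |u - v| ≤ 1 := by
          rw [abs_le]
          constructor <;> linarith [hu.1, hu.2]
        rw [← sq_abs]
        exact pow_le_one₀ (abs_nonneg _) h5
      linarith
    exact mul_le_mul h3 h4 (Real.exp_pos _).le (tr_nonneg _ _ _)
  rw [intervalIntegral.integral_const, smul_eq_mul] at h2
  have h3 : 3 / 5 ≤ Real.exp (-(1 / 2)) := by
    rw [Real.exp_neg, le_inv_comm₀ (by norm_num) (Real.exp_pos _)]
    have h4 : Real.exp (1 / 2) ^ 2 = Real.exp 1 := by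
      rw [← Real.exp_nat_mul]
      congr 1
      norm_num
    have h5 := Real.exp_one_lt_d9
    have h6 := Real.exp_pos (1 / 2)
    by_contra h7
    push Not at h7
    have h8 : (3 / 5 : ℝ)⁻¹ = 5 / 3 := by norm_num
    rw [h8] at h7
    nlinarith
  linarith

/-! ### prime powers -/

theorem lam_gauss : ∃ C : ℝ, 0 < C ∧ ∀ (N : ℕ) (u : ℝ), 0 ≤ u →
    ∑ n ∈ Finset.Icc 1 N, vonMangoldt n / n * Real.exp (-(2 * (u - Real.log n) ^ 2)) ≤ C := by
  classical
  have hsum : Summable (fun k : ℕ => ((k : ℝ) + 1) ^ 2 * Real.exp (-(k : ℝ))) := by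
    have h := (Real.summable_pow_mul_exp_neg_nat_mul 2 one_pos).comp_injective
      (add_left_injective 1)
    refine (h.mul_right (Real.exp 1)).congr fun k => ?_
    simp only [Function.comp_apply]
    rw [mul_assoc, ← Real.exp_add]
    push_cast
    congr 2
    ring
  set C0 := ∑' k : ℕ, ((k : ℝ) + 1) ^ 2 * Real.exp (-(k : ℝ)) with hC0
  have hC00 : 0 ≤ C0 := tsum_nonneg fun k => by positivity
  refine ⟨10 * Real.exp 1 * C0 + 1, by positivity, fun X u hu => ?_⟩
  set w : ℕ → ℝ := fun n => vonMangoldt n / n * Real.exp (-(2 * (u - Real.log n) ^ 2)) with hw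
  set κ : ℕ → ℕ := fun n => ⌊|u - Real.log n|⌋₊ with hκ
  set K : ℕ := (Finset.Icc 1 X).sup κ + 1 with hK
  have hmaps : ∀ n ∈ Finset.Icc 1 X, κ n ∈ Finset.range K := by
    intro n hn
    rw [Finset.mem_range, hK, Nat.lt_succ_iff]
    exact Finset.le_sup (f := κ) hn
  have hfib : ∀ k ∈ Finset.range K, ∑ n ∈ (Finset.Icc 1 X).filter (fun n => κ n = k), w n ≤
      10 * Real.exp 1 * (((k : ℝ) + 1) ^ 2 * Real.exp (-(k : ℝ))) := by
    intro k _
    have hk0 : (0 : ℝ) ≤ k := Nat.cast_nonneg k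
    have h1 : ∀ n ∈ (Finset.Icc 1 X).filter (fun n => κ n = k), w n ≤
        Real.exp (-(2 * (k : ℝ) ^ 2)) * (vonMangoldt n / n) := by
      intro n hn
      rw [Finset.mem_filter, Finset.mem_Icc] at hn
      obtain ⟨⟨h3, _⟩, h5⟩ := hn
      have h6 : (k : ℝ) ≤ |u - Real.log n| := by
        rw [← h5]; exact Nat.floor_le (abs_nonneg _)
      have h8 : Real.exp (-(2 * (u - Real.log n) ^ 2)) ≤ Real.exp (-(2 * (k : ℝ) ^ 2)) := by
        apply Real.exp_le_exp.2
        have h9 : (k : ℝ) ^ 2 ≤ (u - Real.log n) ^ 2 := by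
          rw [← sq_abs (u - Real.log n)]
          exact pow_le_pow_left₀ hk0 h6 2
        linarith
      have h10 : 0 ≤ vonMangoldt n / (n : ℝ) :=
        div_nonneg ArithmeticFunction.vonMangoldt_nonneg (Nat.cast_nonneg _)
      calc w n = Real.exp (-(2 * (u - Real.log n) ^ 2)) * (vonMangoldt n / n) := by
            rw [hw]; ring
        _ ≤ _ := mul_le_mul_of_nonneg_right h8 h10
    have h2 : ∑ n ∈ (Finset.Icc 1 X).filter (fun n => κ n = k), vonMangoldt n / (n : ℝ) ≤
        2 * (k + 1) + 8 := by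
      refine le_trans (Finset.sum_le_sum_of_subset_of_nonneg ?_ fun n _ _ =>
        div_nonneg ArithmeticFunction.vonMangoldt_nonneg (Nat.cast_nonneg _))
        (win u (k + 1) hu (by positivity) X)
      intro n hn
      rw [Finset.mem_filter] at hn ⊢
      refine ⟨hn.1, ?_⟩
      rw [← hn.2]
      exact (Nat.lt_floor_add_one _).le
    have h3 : Real.exp (-(2 * (k : ℝ) ^ 2)) ≤ Real.exp 1 * Real.exp (-(k : ℝ)) := by
      rw [← Real.exp_add]
      apply Real.exp_le_exp.2
      nlinarith [sq_nonneg ((k : ℝ) - 1), sq_nonneg (k : ℝ)]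
    calc ∑ n ∈ (Finset.Icc 1 X).filter (fun n => κ n = k), w n ≤
        ∑ n ∈ (Finset.Icc 1 X).filter (fun n => κ n = k),
          Real.exp (-(2 * (k : ℝ) ^ 2)) * (vonMangoldt n / n) := Finset.sum_le_sum h1
      _ = Real.exp (-(2 * (k : ℝ) ^ 2)) *
          ∑ n ∈ (Finset.Icc 1 X).filter (fun n => κ n = k), vonMangoldt n / (n : ℝ) := by
          rw [Finset.mul_sum]
      _ ≤ (Real.exp 1 * Real.exp (-(k : ℝ))) * (10 * (k + 1)) := by
          apply mul_le_mul h3 (h2.trans (by linarith)) (Finset.sum_nonneg fun n _ =>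
            div_nonneg ArithmeticFunction.vonMangoldt_nonneg (Nat.cast_nonneg _)) (by positivity)
      _ ≤ (Real.exp 1 * Real.exp (-(k : ℝ))) * (10 * (k + 1) ^ 2) := by
          apply mul_le_mul_of_nonneg_left _ (by positivity)
          nlinarith
      _ = _ := by ring
  rw [← Finset.sum_fiberwise_of_maps_to hmaps]
  calc _ ≤ ∑ k ∈ Finset.range K, 10 * Real.exp 1 *
        (((k : ℝ) + 1) ^ 2 * Real.exp (-(k : ℝ))) := Finset.sum_le_sum hfib
    _ = 10 * Real.exp 1 * ∑ k ∈ Finset.range K,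
        (((k : ℝ) + 1) ^ 2 * Real.exp (-(k : ℝ))) := by rw [Finset.mul_sum]
    _ ≤ 10 * Real.exp 1 * C0 := by
        apply mul_le_mul_of_nonneg_left _ (by positivity)
        exact hsum.sum_le_tsum _ fun k _ => by positivity
    _ ≤ _ := by linarith

/-- the prime powers `p^j`, `j ≥ 2`, with a Gaussian weight -/
theorem np_unif : ∃ C : ℝ, 0 < C ∧ ∀ (N : ℕ) (u : ℝ), 0 ≤ u →
    ∑ n ∈ (Finset.Icc 2 N).filter (fun n => ¬ n.Prime), vonMangoldt n * (Real.sqrt n)⁻¹ *
      Real.exp (-(u - Real.log n) ^ 2 / 2) ≤ C := by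
  classical
  obtain ⟨C1, hC1, hG⟩ := lam_gauss
  refine ⟨C1 + 108, by positivity, fun N u hu0 => ?_⟩
  set f : ℕ → ℝ := fun n => vonMangoldt n * (Real.sqrt n)⁻¹ *
    Real.exp (-(u - Real.log n) ^ 2 / 2) with hf
  have hf0 : ∀ n, 0 ≤ f n := fun n => mul_nonneg (mul_nonneg
    ArithmeticFunction.vonMangoldt_nonneg (by positivity)) (Real.exp_pos _).le
  set S : Finset ℕ := ((Finset.Icc 2 N).filter (fun n => ¬ n.Prime)).filter
    (fun n => vonMangoldt n ≠ 0) with hS
  have h1 : ∑ n ∈ (Finset.Icc 2 N).filter (fun n => ¬ n.Prime), f n = ∑ n ∈ S, f n := by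
    rw [hS]
    symm
    refine Finset.sum_subset (Finset.filter_subset _ _) fun n hn hn' => ?_
    have h2 : vonMangoldt n = 0 := by
      by_contra h
      exact hn' (Finset.mem_filter.2 ⟨hn, h⟩)
    rw [hf]
    simp only [h2, zero_mul]
  rw [h1]
  have hmaps : ∀ n ∈ S, n.minFac ∈ (Finset.Icc 1 N).filter Nat.Prime := by
    intro n hn
    rw [hS, Finset.mem_filter, Finset.mem_filter, Finset.mem_Icc] at hn
    obtain ⟨⟨⟨h2, h3⟩, -⟩, -⟩ := hn
    have h4 : n.minFac.Prime := Nat.minFac_prime (by omega)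
    rw [Finset.mem_filter, Finset.mem_Icc]
    exact ⟨⟨h4.one_lt.le, (Nat.minFac_le (by omega)).trans h3⟩, h4⟩
  rw [← Finset.sum_fiberwise_of_maps_to hmaps]
  have hfib : ∀ p ∈ (Finset.Icc 1 N).filter Nat.Prime,
      ∑ n ∈ S.filter (fun n => n.minFac = p), f n ≤
        vonMangoldt p / p * Real.exp (-(2 * (u / 2 - Real.log p) ^ 2)) +
        4 * (vonMangoldt p / p * Real.exp (-(1 / 2 * Real.log p))) := by
    intro p hp
    have hpp : p.Prime := (Finset.mem_filter.1 hp).2
    have hpN : p ≤ N := (Finset.mem_Icc.1 (Finset.mem_filter.1 hp).1).2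
    have hp0 : (0 : ℝ) < p := by exact_mod_cast hpp.pos
    have hp2 : (2 : ℝ) ≤ p := by exact_mod_cast hpp.two_le
    have hinj : Function.Injective (fun j : ℕ => p ^ j) := Nat.pow_right_injective hpp.two_le
    have hsub : S.filter (fun n => n.minFac = p) ⊆ (Finset.Ico 2 (N + 2)).image (fun j => p ^ j) := by
      intro n hn
      rw [Finset.mem_filter] at hn
      obtain ⟨hn, hnp⟩ := hn
      rw [hS, Finset.mem_filter, Finset.mem_filter, Finset.mem_Icc] at hn
      obtain ⟨⟨⟨h2, h3⟩, h4⟩, h5⟩ := hn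
      rw [ArithmeticFunction.vonMangoldt_ne_zero_iff] at h5
      have h6 : ∃ j : ℕ, n = p ^ j := by
        obtain ⟨q, j, hq, hj, hqj⟩ := (isPrimePow_nat_iff n).1 h5
        have h7 : q = p := by
          rw [← hnp, ← hqj, hq.pow_minFac hj.ne']
        exact ⟨j, by rw [← hqj, h7]⟩
      obtain ⟨j, rfl⟩ := h6
      rw [Finset.mem_image]
      refine ⟨j, ?_, rfl⟩
      rw [Finset.mem_Ico]
      constructor
      · by_contra hj
        have h7 : j = 0 ∨ j = 1 := by omega
        rcases h7 with rfl | rfl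
        · simp at h2
        · apply h4
          rw [pow_one]
          exact hpp
      · have h8 : j < p ^ j := Nat.lt_pow_self hpp.one_lt
        omega
    refine (Finset.sum_le_sum_of_subset_of_nonneg hsub fun n _ _ => hf0 n).trans ?_
    rw [Finset.sum_image fun a _ b _ h => hinj h]
    set r : ℝ := (Real.sqrt p)⁻¹ with hr
    have hr0 : 0 ≤ r := by positivity
    have hlogj : ∀ j : ℕ, Real.log ((p ^ j : ℕ) : ℝ) = j * Real.log p := by
      intro j
      push_cast
      rw [Real.log_pow]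
    have hval : ∀ j : ℕ, j ≠ 0 → f (p ^ j) = vonMangoldt p * r ^ j *
        Real.exp (-(u - j * Real.log p) ^ 2 / 2) := by
      intro j hj
      have e2 : Real.sqrt ((p ^ j : ℕ) : ℝ) = Real.sqrt p ^ j := by
        push_cast
        rw [Real.sqrt_eq_rpow, Real.sqrt_eq_rpow, ← Real.rpow_natCast, ← Real.rpow_natCast,
          ← Real.rpow_mul hp0.le, ← Real.rpow_mul hp0.le, mul_comm]
      rw [hf]
      simp only
      rw [hlogj, e2, ArithmeticFunction.vonMangoldt_apply_pow hj, hr, inv_pow]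
    have hr1 : r ≤ 3 / 4 := by
      have a2 : (4 / 3 : ℝ) ≤ Real.sqrt p := by
        apply Real.le_sqrt_of_sq_le
        linarith
      rw [hr, inv_le_comm₀ (by linarith) (by norm_num)]
      linarith
    have hr2 : r ^ 2 = (p : ℝ)⁻¹ := by
      rw [hr, inv_pow, Real.sq_sqrt hp0.le]
    have hr3 : r ^ 3 = (p : ℝ)⁻¹ * Real.exp (-(1 / 2 * Real.log p)) := by
      rw [pow_succ, hr2, hr, Real.exp_neg, Real.sqrt_eq_rpow, Real.rpow_def_of_pos hp0]
      congr 3
      ring
    have hgeo : ∑ j ∈ Finset.Ico 3 (N + 2), r ^ j ≤ 4 * r ^ 3 := by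
      have b1 : ∑ j ∈ Finset.Ico 3 (N + 2), r ^ j = r ^ 3 * ∑ j ∈ Finset.range (N + 2 - 3), r ^ j := by
        rw [Finset.sum_Ico_eq_sum_range, Finset.mul_sum]
        refine Finset.sum_congr rfl fun j _ => ?_
        rw [pow_add]
      have b2 : ∑ j ∈ Finset.range (N + 2 - 3), r ^ j ≤ 4 := by
        have b3 : ∑ j ∈ Finset.range (N + 2 - 3), r ^ j ≤ (1 - r)⁻¹ := by
          rw [← tsum_geometric_of_lt_one hr0 (by linarith)]
          exact (summable_geometric_of_lt_one hr0 (by linarith)).sum_le_tsum _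
            fun i _ => by positivity
        refine b3.trans ?_
        rw [inv_le_comm₀ (by linarith) (by norm_num)]
        linarith
      rw [b1, mul_comm]
      exact mul_le_mul_of_nonneg_right b2 (by positivity)
    have hN2 : 2 < N + 2 := by
      have := hpp.two_le
      omega
    rw [Finset.sum_eq_sum_Ico_succ_bot hN2]
    have hL0 : 0 ≤ vonMangoldt p := ArithmeticFunction.vonMangoldt_nonneg
    have c1 : f (p ^ 2) = vonMangoldt p / p * Real.exp (-(2 * (u / 2 - Real.log p) ^ 2)) := by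
      rw [hval 2 (by norm_num), hr2, div_eq_mul_inv]
      congr 2
      push_cast
      ring
    have c2 : ∑ j ∈ Finset.Ico (2 + 1) (N + 2), f (p ^ j) ≤
        4 * (vonMangoldt p / p * Real.exp (-(1 / 2 * Real.log p))) := by
      have d1 : ∀ j ∈ Finset.Ico (2 + 1) (N + 2), f (p ^ j) ≤ vonMangoldt p * r ^ j := by
        intro j hj
        rw [Finset.mem_Ico] at hj
        rw [hval j (by omega)]
        have d2 : Real.exp (-(u - j * Real.log p) ^ 2 / 2) ≤ 1 := by
          rw [Real.exp_le_one_iff]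
          have := sq_nonneg (u - j * Real.log p)
          linarith
        exact mul_le_of_le_one_right (mul_nonneg hL0 (by positivity)) d2
      refine (Finset.sum_le_sum d1).trans ?_
      rw [← Finset.mul_sum]
      calc vonMangoldt p * ∑ j ∈ Finset.Ico (2 + 1) (N + 2), r ^ j ≤
          vonMangoldt p * (4 * r ^ 3) := mul_le_mul_of_nonneg_left hgeo hL0
        _ = _ := by
            rw [hr3]
            ring
    rw [c1]
    linarith
  refine (Finset.sum_le_sum hfib).trans ?_
  rw [Finset.sum_add_distrib, ← Finset.mul_sum]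
  have h2 := Pool.Agent.H181.HP.sum_lam (y := 1 / 2) (by norm_num) N
  have h3 : ∑ p ∈ (Finset.Icc 1 N).filter Nat.Prime,
      vonMangoldt p / p * Real.exp (-(1 / 2 * Real.log p)) ≤
      ∑ n ∈ Finset.Icc 1 N, vonMangoldt n / n * Real.exp (-(1 / 2 * Real.log n)) :=
    Finset.sum_le_sum_of_subset_of_nonneg (Finset.filter_subset _ _) fun n _ _ =>
      mul_nonneg (div_nonneg ArithmeticFunction.vonMangoldt_nonneg (Nat.cast_nonneg _))
        (Real.exp_pos _).le
  have h4 := hG N (u / 2) (by linarith)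
  have h5 : ∑ p ∈ (Finset.Icc 1 N).filter Nat.Prime,
      vonMangoldt p / p * Real.exp (-(2 * (u / 2 - Real.log p) ^ 2)) ≤
      ∑ n ∈ Finset.Icc 1 N, vonMangoldt n / n * Real.exp (-(2 * (u / 2 - Real.log n) ^ 2)) :=
    Finset.sum_le_sum_of_subset_of_nonneg (Finset.filter_subset _ _) fun n _ _ =>
      mul_nonneg (div_nonneg ArithmeticFunction.vonMangoldt_nonneg (Nat.cast_nonneg _))
        (Real.exp_pos _).le
  linarith

end Pool.Agent.H225.HN
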