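import Pool.Agent.H466.HP.Stm3
import Pool.Agent.H870.HP.DM

/-!
# HP-MOM (helper603 for helper466): high moments of polynomials over the primes
-/

set_option autoImplicit false

namespace Pool.Agent.H225.HN.MomA

open Complex Finset

/-- the primes up to `N` -/
def Sp (N : ℕ) : Finset ℕ := (Finset.Icc 1 N).filter Nat.Prime

/-- the `k`-tuples of primes with product `n` -/
def fib (N k n : ℕ) : Finset (Fin k → ℕ) :=
  (Fintype.piFinset fun _ : Fin k => Sp N).filter fun f => ∏ i, f i = n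

theorem card_fib (N k n : ℕ) : (fib N k n).card ≤ k.factorial := by
  rcases (fib N k n).eq_empty_or_nonempty with h | ⟨f₀, h₀⟩
  · rw [h]
    simp
  have key : ∀ f ∈ fib N k n, List.Perm (List.ofFn f) n.primeFactorsList := by
    intro f hf
    unfold fib at hf
    rw [mem_filter, Fintype.mem_piFinset] at hf
    apply Nat.primeFactorsList_unique
    · rw [List.prod_ofFn]
      exact hf.2
    · intro p hp
      rw [List.mem_ofFn] at hp
      obtain ⟨i, rfl⟩ := hp
      have := hf.1 i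
      unfold Sp at this
      exact (mem_filter.1 this).2
  have hlen : n.primeFactorsList.length = k := by
    rw [← (key f₀ h₀).length_eq, List.length_ofFn]
  calc (fib N k n).card ≤ (n.primeFactorsList.permutations.toFinset).card := by
        apply Finset.card_le_card_of_injOn (fun f => List.ofFn f)
        · intro f hf
          rw [mem_coe, List.mem_toFinset, List.mem_permutations]
          exact key f hf
        · intro f _ g _ hfg
          exact List.ofFn_injective hfg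
    _ ≤ n.primeFactorsList.permutations.length := List.toFinset_card_le _
    _ = k.factorial := by rw [List.length_permutations, hlen]

/-- the coefficients -/
noncomputable def bb (N k : ℕ) (a : ℕ → ℂ) (n : ℕ) : ℂ := ∑ f ∈ fib N k n, ∏ i, a (f i)

theorem prod_mem (N k : ℕ) (hk : 1 ≤ k) (f : Fin k → ℕ)
    (hf : f ∈ Fintype.piFinset fun _ : Fin k => Sp N) : ∏ i, f i ∈ Finset.Icc 2 (N ^ k) := by
  rw [Fintype.mem_piFinset] at hf
  have h1 : ∀ i, 2 ≤ f i ∧ f i ≤ N := by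
    intro i
    have := hf i
    unfold Sp at this
    rw [mem_filter, Finset.mem_Icc] at this
    exact ⟨this.2.two_le, this.1.2⟩
  rw [Finset.mem_Icc]
  constructor
  · calc 2 ≤ 2 ^ k := Nat.le_self_pow (by omega) 2
      _ = ∏ _i : Fin k, 2 := by simp
      _ ≤ ∏ i, f i := Finset.prod_le_prod' fun i _ => (h1 i).1
  · calc ∏ i, f i ≤ ∏ _i : Fin k, N := Finset.prod_le_prod' fun i _ => (h1 i).2
      _ = N ^ k := by simp

/-- the sum of the squares of the coefficients -/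
theorem bb_sum (N k : ℕ) (hk : 1 ≤ k) (a : ℕ → ℂ) :
    ∑ n ∈ Finset.Icc 2 (N ^ k), ‖bb N k a n‖ ^ 2 ≤
      (k.factorial : ℝ) * (∑ p ∈ Sp N, ‖a p‖ ^ 2) ^ k := by
  have h1 : ∀ n, ‖bb N k a n‖ ^ 2 ≤
      (k.factorial : ℝ) * ∑ f ∈ fib N k n, ∏ i, ‖a (f i)‖ ^ 2 := by
    intro n
    have h2 : ‖bb N k a n‖ ≤ ∑ f ∈ fib N k n, ‖∏ i, a (f i)‖ := norm_sum_le _ _
    have h3 : 0 ≤ ∑ f ∈ fib N k n, ∏ i, ‖a (f i)‖ ^ 2 :=
      Finset.sum_nonneg fun f _ => Finset.prod_nonneg fun i _ => sq_nonneg _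
    calc ‖bb N k a n‖ ^ 2 ≤ (∑ f ∈ fib N k n, ‖∏ i, a (f i)‖) ^ 2 :=
          pow_le_pow_left₀ (norm_nonneg _) h2 2
      _ ≤ ((fib N k n).card : ℝ) * ∑ f ∈ fib N k n, ‖∏ i, a (f i)‖ ^ 2 :=
          sq_sum_le_card_mul_sum_sq
      _ = ((fib N k n).card : ℝ) * ∑ f ∈ fib N k n, ∏ i, ‖a (f i)‖ ^ 2 := by
          congr 1
          refine Finset.sum_congr rfl fun f _ => ?_
          rw [norm_prod, Finset.prod_pow]
      _ ≤ (k.factorial : ℝ) * ∑ f ∈ fib N k n, ∏ i, ‖a (f i)‖ ^ 2 := by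
          apply mul_le_mul_of_nonneg_right _ h3
          exact_mod_cast card_fib N k n
  calc ∑ n ∈ Finset.Icc 2 (N ^ k), ‖bb N k a n‖ ^ 2 ≤
      ∑ n ∈ Finset.Icc 2 (N ^ k), (k.factorial : ℝ) * ∑ f ∈ fib N k n, ∏ i, ‖a (f i)‖ ^ 2 :=
        Finset.sum_le_sum fun n _ => h1 n
    _ = (k.factorial : ℝ) * ∑ n ∈ Finset.Icc 2 (N ^ k),
        ∑ f ∈ (Fintype.piFinset fun _ : Fin k => Sp N) with ∏ i, f i = n,
          ∏ i, ‖a (f i)‖ ^ 2 := by rw [← Finset.mul_sum]; rfl
    _ = (k.factorial : ℝ) * ∑ f ∈ Fintype.piFinset fun _ : Fin k => Sp N,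
          ∏ i, ‖a (f i)‖ ^ 2 := by
        rw [Finset.sum_fiberwise_of_maps_to fun f hf => prod_mem N k hk f hf]
    _ = (k.factorial : ℝ) * (∑ p ∈ Sp N, ‖a p‖ ^ 2) ^ k := by
        congr 1
        have h4 := Finset.prod_univ_sum (fun _ : Fin k => Sp N) (fun _ p => ‖a p‖ ^ 2)
        rw [← h4, Finset.prod_const, Finset.card_univ, Fintype.card_fin]

/-- the power of the sum -/
theorem pow_sum (N k : ℕ) (hk : 1 ≤ k) (a : ℕ → ℂ) (t : ℝ) :
    (∑ p ∈ Sp N, a p * cexp (-(I * t * Real.log p))) ^ k =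
      ∑ n ∈ Finset.Icc 2 (N ^ k), bb N k a n * cexp (-((Real.log n : ℂ) * I) * (t : ℂ)) := by
  have h4 := Finset.prod_univ_sum (fun _ : Fin k => Sp N)
    (fun _ p => a p * cexp (-(I * t * Real.log p)))
  rw [Finset.prod_const, Finset.card_univ, Fintype.card_fin] at h4
  rw [h4, ← Finset.sum_fiberwise_of_maps_to fun f hf => prod_mem N k hk f hf]
  refine Finset.sum_congr rfl fun n hn => ?_
  unfold bb fib
  rw [Finset.sum_mul]
  refine Finset.sum_congr rfl fun f hf => ?_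
  rw [mem_filter, Fintype.mem_piFinset] at hf
  rw [Finset.prod_mul_distrib, ← Complex.exp_sum]
  congr 2
  have h5 : Real.log n = ∑ i, Real.log (f i) := by
    rw [← hf.2, Nat.cast_prod, Real.log_prod]
    intro i _
    have := hf.1 i
    unfold Sp at this
    exact_mod_cast (mem_filter.1 this).2.ne_zero
  rw [h5]
  push_cast
  rw [Finset.sum_mul, ← Finset.sum_neg_distrib, Finset.sum_mul]
  refine Finset.sum_congr rfl fun i _ => ?_
  ring

end Pool.Agent.H225.HN.MomA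

namespace Pool.Agent.H225.HN

open Complex MeasureTheory Set Filter Topology
open Pool.Agent.H225.HN.MomA
open Pool.Agent.H466.HP (S_MOM)

theorem mom : S_MOM := by
  intro N k T a hk hT hN
  obtain ⟨f, hfd⟩ : ∃ f : ℝ → ℂ, f = fun t : ℝ =>
    ∑ n ∈ Finset.Icc 2 (N ^ k), bb N k a n * (n : ℂ) ^ (-(t : ℂ) * I) := ⟨_, rfl⟩
  have hf1 : ∀ t : ℝ, f t =
      ∑ n ∈ Finset.Icc 2 (N ^ k), bb N k a n * cexp (-((Real.log n : ℂ) * I) * (t : ℂ)) := by
    intro t
    rw [hfd]
    refine Finset.sum_congr rfl fun n hn => ?_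
    rw [Pool.Agent.TH850.UV.DPM952.cpow_eq n (Finset.mem_Icc.mp hn).1]
  have hcont : Continuous f := by
    have : f = fun t : ℝ => ∑ n ∈ Finset.Icc 2 (N ^ k),
        bb N k a n * cexp (-((Real.log n : ℂ) * I) * (t : ℂ)) := funext hf1
    rw [this]
    fun_prop
  have hf : ∀ t : ℝ, ‖∑ p ∈ (Finset.Icc 1 N).filter Nat.Prime,
      a p * cexp (-(I * t * Real.log p))‖ ^ (2 * k) = ‖f t‖ ^ 2 := by
    intro t
    have h1 := pow_sum N k hk a t
    rw [mul_comm 2 k, pow_mul, ← norm_pow]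
    change ‖(∑ p ∈ Sp N, a p * cexp (-(I * t * Real.log p))) ^ k‖ ^ 2 = _
    rw [h1, hf1]
  have hT0 : 0 < T := by linarith
  have hX : 8 * ((N ^ k : ℕ) : ℝ) ^ 2 ≤ 3 * T := by
    rcases Nat.eq_zero_or_pos N with h0 | h0
    · subst h0
      rw [zero_pow (by omega)]
      simp
      linarith
    · have hN1 : (1 : ℝ) ≤ N := by exact_mod_cast h0
      obtain ⟨y, hy⟩ : ∃ y : ℝ, y = ((N : ℝ) + 1) ^ (2 * k) := ⟨_, rfl⟩
      have hy2 : y ^ 2 ≤ T := by
        rw [hy, ← pow_mul]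
        calc ((N : ℝ) + 1) ^ (2 * k * 2) = ((N : ℝ) + 1) ^ (4 * k) := by congr 1; ring
          _ ≤ T := hN
      have hy4 : 4 ≤ y := by
        rw [hy]
        calc (4 : ℝ) = 2 ^ (2 * 1) := by norm_num
          _ ≤ ((N : ℝ) + 1) ^ (2 * 1) := pow_le_pow_left₀ (by norm_num) (by linarith) _
          _ ≤ ((N : ℝ) + 1) ^ (2 * k) := pow_le_pow_right₀ (by linarith) (by omega)
      have hNy : ((N ^ k : ℕ) : ℝ) ^ 2 ≤ y := by
        rw [hy]
        push_cast
        rw [← pow_mul, mul_comm k 2]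
        exact pow_le_pow_left₀ (by linarith) (by linarith) _
      nlinarith
  have hmv := Pool.Agent.H870.HP.mv (N ^ k) (bb N k a) T (2 * T) (by linarith)
  have hbb := bb_sum N k hk a
  have hS0 : 0 ≤ ∑ n ∈ Finset.Icc 2 (N ^ k), ‖bb N k a n‖ ^ 2 :=
    Finset.sum_nonneg fun n _ => sq_nonneg _
  simp only [hf]
  calc ∫⁻ t in Icc T (2 * T), ENNReal.ofReal (‖f t‖ ^ 2)
      = ENNReal.ofReal (∫ t in Icc T (2 * T), ‖f t‖ ^ 2) := by
        rw [ofReal_integral_eq_lintegral_ofReal]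
        · exact (Continuous.continuousOn (by fun_prop)).integrableOn_compact isCompact_Icc
        · exact Eventually.of_forall fun t => by positivity
    _ ≤ ENNReal.ofReal (4 * T * (k.factorial : ℝ) *
        (∑ p ∈ (Finset.Icc 1 N).filter Nat.Prime, ‖a p‖ ^ 2) ^ k) := by
        apply ENNReal.ofReal_le_ofReal
        rw [integral_Icc_eq_integral_Ioc, ← intervalIntegral.integral_of_le (by linarith)]
        rw [hfd]
        refine hmv.trans ?_
        calc ((2 * T - T) + 8 * ((N ^ k : ℕ) : ℝ) ^ 2) *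
            ∑ n ∈ Finset.Icc 2 (N ^ k), ‖bb N k a n‖ ^ 2 ≤
            (4 * T) * ((k.factorial : ℝ) * (∑ p ∈ Sp N, ‖a p‖ ^ 2) ^ k) := by
              apply mul_le_mul (by linarith) hbb hS0 (by linarith)
          _ = _ := by
              unfold Sp
              ring

end Pool.Agent.H225.HN
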