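import Pool.Agent.H225.HN.MSa
import Pool.Agent.H225.HN.Mom

/-!
# HN-MS, second part (helper225 for helper466): moments and the decomposition
-/

set_option autoImplicit false

namespace Pool.Agent.H225.HN

open Complex MeasureTheory Set Filter Topology
open Pool.Agent.H466.HP
open H370 (PP pterm)
open H370.A2 (lamC lamC_norm)
open ArithmeticFunction (vonMangoldt)

/-! ### Mertens in windows, lower bound -/

theorem mass_low : ∃ C : ℝ, 0 < C ∧ ∀ (N : ℕ) (m r : ℝ), 1 ≤ N → 0 ≤ r → 0 ≤ m - r →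
    m + r ≤ Real.log N → 2 * r - C ≤
      ∑ p ∈ ((Finset.Icc 1 N).filter Nat.Prime).filter (fun p : ℕ => |Real.log p - m| ≤ r),
        Real.log p / p := by
  classical
  obtain ⟨C, hC⟩ := Pool.Agent.Helper923.HMertens.mertens_log
  refine ⟨2 * |C| + 1, by positivity, fun N m r hN hr h0 hN' => ?_⟩
  obtain ⟨N2, hN2⟩ : ∃ N2 : ℕ, N2 = ⌊Real.exp (m + r)⌋₊ := ⟨_, rfl⟩
  obtain ⟨N1, hN1⟩ : ∃ N1 : ℕ, N1 = ⌊Real.exp (m - r)⌋₊ := ⟨_, rfl⟩
  have hN0 : (0 : ℝ) < N := by exact_mod_cast hN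
  have h1 : 1 ≤ N1 := by
    rw [hN1, Nat.one_le_floor_iff]
    exact Real.one_le_exp h0
  have h2 : 1 ≤ N2 := by
    rw [hN2, Nat.one_le_floor_iff]
    exact Real.one_le_exp (by linarith)
  have h10 : (1 : ℝ) ≤ N1 := by exact_mod_cast h1
  have h20 : (1 : ℝ) ≤ N2 := by exact_mod_cast h2
  have a1 : Real.log N1 ≤ m - r := by
    rw [Real.log_le_iff_le_exp (by linarith), hN1]
    exact Nat.floor_le (Real.exp_pos _).le
  have a2 : m + r - 1 ≤ Real.log N2 := by
    have h3 : Real.exp (m + r) < N2 + 1 := by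
      rw [hN2]
      exact Nat.lt_floor_add_one _
    rw [Real.le_log_iff_exp_le (by linarith)]
    have h4 : Real.exp (m + r - 1) = Real.exp (m + r) * Real.exp (-1) := by
      rw [← Real.exp_add]; congr 1
    have h5 : Real.exp (-1) ≤ 1 / 2 := by
      rw [Real.exp_neg, inv_eq_one_div]
      apply one_div_le_one_div_of_le (by norm_num)
      linarith [Real.add_one_le_exp 1]
    rw [h4]
    have h6 := Real.exp_pos (m + r)
    nlinarith
  have b1 := (abs_le.1 (hC N1 h1)).2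
  have b2 := (abs_le.1 (hC N2 h2)).1
  have hpos : ∀ p : ℕ, 0 ≤ Real.log p / (p : ℝ) := fun p =>
    div_nonneg (Real.log_natCast_nonneg p) (Nat.cast_nonneg _)
  have c0 : ∑ p ∈ (Finset.Icc 1 N2).filter Nat.Prime, Real.log p / (p : ℝ) ≤
      ∑ p ∈ ((Finset.Icc 1 N1).filter Nat.Prime) ∪
        (((Finset.Icc 1 N).filter Nat.Prime).filter (fun p : ℕ => |Real.log p - m| ≤ r)),
        Real.log p / (p : ℝ) := by
    refine Finset.sum_le_sum_of_subset_of_nonneg ?_ fun p _ _ => hpos p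
    intro p hp
    rw [Finset.mem_filter, Finset.mem_Icc] at hp
    obtain ⟨⟨hp1, hp2⟩, hpp⟩ := hp
    rw [Finset.mem_union]
    by_cases hp3 : p ≤ N1
    · left
      rw [Finset.mem_filter, Finset.mem_Icc]
      exact ⟨⟨hp1, hp3⟩, hpp⟩
    · right
      push Not at hp3
      have hp0 : (0 : ℝ) < p := by exact_mod_cast hp1
      have d1 : Real.log p ≤ m + r := by
        rw [Real.log_le_iff_le_exp hp0]
        have : (p : ℝ) ≤ N2 := by exact_mod_cast hp2
        refine this.trans ?_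
        rw [hN2]
        exact Nat.floor_le (Real.exp_pos _).le
      have d2 : m - r ≤ Real.log p := by
        rw [Real.le_log_iff_exp_le hp0]
        have d3 : Real.exp (m - r) < N1 + 1 := by
          rw [hN1]
          exact Nat.lt_floor_add_one _
        have d4 : (N1 : ℝ) + 1 ≤ p := by exact_mod_cast hp3
        linarith
      rw [Finset.mem_filter, Finset.mem_filter, Finset.mem_Icc]
      refine ⟨⟨⟨hp1, ?_⟩, hpp⟩, ?_⟩
      · have d5 : Real.log p ≤ Real.log N := by linarith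
        have d6 := (Real.log_le_log_iff hp0 hN0).1 d5
        exact_mod_cast d6
      · rw [abs_le]
        constructor <;> linarith
  have e1 := Finset.sum_union_inter (s₁ := (Finset.Icc 1 N1).filter Nat.Prime)
    (s₂ := ((Finset.Icc 1 N).filter Nat.Prime).filter
      (fun p : ℕ => |Real.log p - m| ≤ r)) (f := fun p : ℕ => Real.log p / (p : ℝ))
  have e2 : 0 ≤ ∑ p ∈ ((Finset.Icc 1 N1).filter Nat.Prime) ∩
    (((Finset.Icc 1 N).filter Nat.Prime).filter (fun p : ℕ => |Real.log p - m| ≤ r)),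
    Real.log p / (p : ℝ) := Finset.sum_nonneg fun p _ => hpos p
  have e3 := le_abs_self C
  linarith

/-! ### the coefficients -/

/-- coefficient of the prime polynomial -/
noncomputable def bp (m r U : ℝ) (n : ℕ) : ℂ :=
  lamC n * (Real.sqrt n : ℂ)⁻¹ * (aa m r U (Real.log n) : ℂ)

theorem bp_norm {m r U : ℝ} (hU : 0 ≤ U) (n : ℕ) :
    ‖bp m r U n‖ = vonMangoldt n * (Real.sqrt n)⁻¹ * aa m r U (Real.log n) := by
  unfold bp
  rw [norm_mul, norm_mul, lamC_norm, norm_inv, Complex.norm_real, Complex.norm_real,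
    Real.norm_of_nonneg (Real.sqrt_nonneg _), Real.norm_of_nonneg (aa_nonneg hU _)]

/-- the primes -/
abbrev Pr (N : ℕ) : Finset ℕ := (Finset.Icc 1 N).filter Nat.Prime

theorem A_low : ∃ C : ℝ, 4 ≤ C ∧ ∀ (N : ℕ) (m r U : ℝ), 1 ≤ N → C ≤ r → 0 ≤ m - r →
    m + r ≤ U → m + r ≤ Real.log N →
    9 / 400 * (m * r) ≤ ∑ p ∈ Pr N, ‖bp m r U p‖ ^ 2 := by
  classical
  obtain ⟨C, hC, hM⟩ := mass_low
  refine ⟨2 * C + 4, by linarith, fun N m r U hN hr h0 hU hlog => ?_⟩
  have hr0 : 0 ≤ r := by linarith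
  have hU0 : 0 ≤ U := by linarith
  have h1 := hM N m (r / 2) hN (by linarith) (by linarith) (by linarith)
  have h2 : ∑ p ∈ (Pr N).filter (fun p : ℕ => |Real.log p - m| ≤ r / 2),
      9 / 200 * m * (Real.log p / p) ≤ ∑ p ∈ Pr N, ‖bp m r U p‖ ^ 2 := by
    refine le_trans (Finset.sum_le_sum fun p hp => ?_)
      (Finset.sum_le_sum_of_subset_of_nonneg (Finset.filter_subset _ _) fun p _ _ => sq_nonneg _)
    rw [Finset.mem_filter, Finset.mem_filter, Finset.mem_Icc] at hp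
    obtain ⟨⟨⟨hp1, hp2⟩, hpp⟩, hp3⟩ := hp
    have hp0 : (0 : ℝ) < p := by exact_mod_cast hp1
    have ha := aa_low (U := U) (by linarith) h0 hU hp3
    rw [bp_norm hU0, ArithmeticFunction.vonMangoldt_apply_prime hpp, mul_pow, mul_pow, inv_pow,
      Real.sq_sqrt hp0.le]
    rw [abs_le] at hp3
    have hl : m / 2 ≤ Real.log p := by linarith
    have hm0 : 0 ≤ m := by linarith
    have hl0 : 0 ≤ Real.log p := by linarith
    have ha2 : 9 / 100 ≤ aa m r U (Real.log p) ^ 2 := by nlinarith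
    calc 9 / 200 * m * (Real.log p / p) = 9 / 100 * (m / 2 * Real.log p) * (p : ℝ)⁻¹ := by
          ring
      _ ≤ aa m r U (Real.log p) ^ 2 * (Real.log p * Real.log p) * (p : ℝ)⁻¹ := by
          gcongr
      _ = _ := by ring
  rw [← Finset.mul_sum] at h2
  have hm0 : 0 ≤ m := by linarith
  have h3 : 9 / 200 * m * (r / 2) ≤ 9 / 200 * m *
      ∑ p ∈ (Pr N).filter (fun p : ℕ => |Real.log p - m| ≤ r / 2), Real.log p / (p : ℝ) := by
    apply mul_le_mul_of_nonneg_left _ (by positivity)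
    refine le_trans ?_ h1
    linarith
  linarith

/-! ### moments -/

theorem mv_low (X : ℕ) (κ : ℕ → ℂ) (T1 T2 : ℝ) (hT : T1 ≤ T2) :
    ((T2 - T1) - 8 * (X : ℝ) ^ 2) * ∑ n ∈ Finset.Icc 2 X, ‖κ n‖ ^ 2 ≤
      ∫ t in T1..T2, ‖∑ n ∈ Finset.Icc 2 X, κ n * (n : ℂ) ^ (-(t : ℂ) * I)‖ ^ 2 := by
  have hcont : Continuous fun t : ℝ => ∑ n ∈ Finset.Icc 2 X, κ n * (n : ℂ) ^ (-(t : ℂ) * I) := by
    refine continuous_finsetSum _ fun n hn => ?_
    have hn2 : 2 ≤ n := (Finset.mem_Icc.mp hn).1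
    have : (fun t : ℝ => κ n * (n : ℂ) ^ (-(t : ℂ) * I)) =
        fun t : ℝ => κ n * cexp (-((Real.log n : ℂ) * I) * (t : ℂ)) := by
      funext t
      rw [Pool.Agent.TH850.UV.DPM952.cpow_eq n hn2]
    rw [this]
    fun_prop
  have h1 := (abs_le.1 (Pool.Agent.TH850.UV.dpm X κ T1 T2 hT)).1
  have h2 := (abs_le.1 (Pool.Agent.TH850.UV.dpm X (fun n => -I * κ n) T1 T2 hT)).1
  have e1 : ∀ t : ℝ, (∑ n ∈ Finset.Icc 2 X, -I * κ n * (n : ℂ) ^ (-(t : ℂ) * I)).re =
      (∑ n ∈ Finset.Icc 2 X, κ n * (n : ℂ) ^ (-(t : ℂ) * I)).im := by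
    intro t
    have h3 : ∑ n ∈ Finset.Icc 2 X, -I * κ n * (n : ℂ) ^ (-(t : ℂ) * I) =
        -I * ∑ n ∈ Finset.Icc 2 X, κ n * (n : ℂ) ^ (-(t : ℂ) * I) := by
      rw [Finset.mul_sum]
      exact Finset.sum_congr rfl fun n _ => by ring
    rw [h3]
    simp
  have e2 : ∀ n, ‖-I * κ n‖ = ‖κ n‖ := by
    intro n
    rw [norm_mul, norm_neg, Complex.norm_I, one_mul]
  simp only [e1, e2] at h2
  have e3 : ∫ t in T1..T2, ‖∑ n ∈ Finset.Icc 2 X, κ n * (n : ℂ) ^ (-(t : ℂ) * I)‖ ^ 2 =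
      (∫ t in T1..T2, ((∑ n ∈ Finset.Icc 2 X, κ n * (n : ℂ) ^ (-(t : ℂ) * I)).re) ^ 2) +
      ∫ t in T1..T2, ((∑ n ∈ Finset.Icc 2 X, κ n * (n : ℂ) ^ (-(t : ℂ) * I)).im) ^ 2 := by
    rw [← intervalIntegral.integral_add]
    · refine intervalIntegral.integral_congr fun t _ => ?_
      rw [Complex.sq_norm, Complex.normSq_apply]
      ring
    · exact ((Complex.continuous_re.comp hcont).pow 2).intervalIntegrable _ _
    · exact ((Complex.continuous_im.comp hcont).pow 2).intervalIntegrable _ _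
  have h3 : (∑ n ∈ Finset.Icc 2 X, ‖κ n‖) ^ 2 ≤ X * ∑ n ∈ Finset.Icc 2 X, ‖κ n‖ ^ 2 := by
    refine (sq_sum_le_card_mul_sum_sq (s := Finset.Icc 2 X) (f := fun n => ‖κ n‖)).trans ?_
    apply mul_le_mul_of_nonneg_right _ (Finset.sum_nonneg fun n _ => sq_nonneg _)
    rw [Nat.card_Icc]
    have : X + 1 - 2 ≤ X := by omega
    exact_mod_cast this
  have h4 : 4 * (X : ℝ) * (∑ n ∈ Finset.Icc 2 X, ‖κ n‖) ^ 2 ≤
      4 * (X : ℝ) * (X * ∑ n ∈ Finset.Icc 2 X, ‖κ n‖ ^ 2) :=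
    mul_le_mul_of_nonneg_left h3 (by positivity)
  rw [e3]
  nlinarith

/-- the prime polynomial -/
noncomputable def Pp (m r U : ℝ) (N : ℕ) (t : ℝ) : ℂ :=
  ∑ p ∈ Pr N, bp m r U p * cexp (-(I * t * Real.log p))

theorem Pp_cont (m r U : ℝ) (N : ℕ) : Continuous (Pp m r U N) := by
  unfold Pp
  fun_prop

theorem Pr_eq (N : ℕ) : Pr N = (Finset.Icc 2 N).filter Nat.Prime := by
  ext p
  rw [Finset.mem_filter, Finset.mem_filter, Finset.mem_Icc, Finset.mem_Icc]
  constructor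
  · rintro ⟨⟨h1, h2⟩, h3⟩
    exact ⟨⟨h3.two_le, h2⟩, h3⟩
  · rintro ⟨⟨h1, h2⟩, h3⟩
    exact ⟨⟨by omega, h2⟩, h3⟩

theorem cpow' {n : ℕ} (hn : 2 ≤ n) (t : ℝ) :
    (n : ℂ) ^ (-(t : ℂ) * I) = cexp (-(I * t * Real.log n)) := by
  rw [Pool.Agent.TH850.UV.DPM952.cpow_eq n hn]
  congr 1
  ring

theorem Pp_two {m r U T : ℝ} {N : ℕ} (hT : 0 ≤ T) :
    (T - 8 * (N : ℝ) ^ 2) * ∑ p ∈ Pr N, ‖bp m r U p‖ ^ 2 ≤
      ∫ t in T..(2 * T), ‖Pp m r U N t‖ ^ 2 := by
  classical
  have h := mv_low N (fun n => if n.Prime then bp m r U n else 0) T (2 * T) (by linarith)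
  have e1 : ∑ n ∈ Finset.Icc 2 N, ‖(fun n : ℕ => if n.Prime then bp m r U n else 0) n‖ ^ 2 =
      ∑ p ∈ Pr N, ‖bp m r U p‖ ^ 2 := by
    rw [Pr_eq, Finset.sum_filter]
    refine Finset.sum_congr rfl fun n _ => ?_
    by_cases hn : n.Prime
    · simp only [hn, if_true]
    · simp only [hn, if_false, norm_zero]
      norm_num
  have e2 : ∀ t : ℝ, ∑ n ∈ Finset.Icc 2 N, (fun n : ℕ => if n.Prime then bp m r U n else 0) n *
      (n : ℂ) ^ (-(t : ℂ) * I) = Pp m r U N t := by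
    intro t
    unfold Pp
    rw [Pr_eq, Finset.sum_filter]
    refine Finset.sum_congr rfl fun n hn => ?_
    rw [cpow' (Finset.mem_Icc.1 hn).1]
    by_cases hn : n.Prime
    · simp only [hn, if_true]
    · simp only [hn, if_false, zero_mul]
  rw [e1] at h
  simp only [e2] at h
  have e3 : 2 * T - T = T := by ring
  rw [e3] at h
  exact h

theorem Pp_four {m r U T : ℝ} {N : ℕ} (hT : 1 ≤ T) (hN : ((N : ℝ) + 1) ^ 8 ≤ T) :
    ∫ t in T..(2 * T), (‖Pp m r U N t‖ ^ 2) ^ 2 ≤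
      8 * T * (∑ p ∈ Pr N, ‖bp m r U p‖ ^ 2) ^ 2 := by
  have hc := Pp_cont m r U N
  have h := mom N 2 T (bp m r U) (by norm_num) hT (by
    have : 4 * 2 = 8 := by norm_num
    rw [this]
    exact hN)
  have e1 : ∀ t : ℝ, ‖∑ p ∈ (Finset.Icc 1 N).filter Nat.Prime,
      bp m r U p * cexp (-(I * t * Real.log p))‖ ^ (2 * 2) = (‖Pp m r U N t‖ ^ 2) ^ 2 := by
    intro t
    rw [← pow_mul]
    rfl
  simp only [e1] at h
  have e2 : ∫⁻ t in Icc T (2 * T), ENNReal.ofReal ((‖Pp m r U N t‖ ^ 2) ^ 2) =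
      ENNReal.ofReal (∫ t in Icc T (2 * T), (‖Pp m r U N t‖ ^ 2) ^ 2) := by
    rw [ofReal_integral_eq_lintegral_ofReal]
    · exact (Continuous.continuousOn (by fun_prop)).integrableOn_compact isCompact_Icc
    · exact Eventually.of_forall fun t => by positivity
  rw [e2] at h
  have h2 := (ENNReal.ofReal_le_ofReal_iff (by positivity)).1 h
  rw [integral_Icc_eq_integral_Ioc, ← intervalIntegral.integral_of_le (by linarith)] at h2
  refine h2.trans (le_of_eq ?_)
  have e3 : ((2 : ℕ).factorial : ℝ) = 2 := by norm_num [Nat.factorial]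
  rw [e3]
  ring

/-- Paley–Zygmund -/
theorem pz {T A : ℝ} (hT : 0 < T) (hA : 0 < A) {f : ℝ → ℝ} (hf : Continuous f)
    (h2 : T * A / 2 ≤ ∫ t in T..(2 * T), f t)
    (h4 : ∫ t in T..(2 * T), f t ^ 2 ≤ 8 * T * A ^ 2) :
    volume {t : ℝ | t ∈ Icc T (2 * T) ∧ f t < A / 4} ≤
      ENNReal.ofReal ((1 - 1 / 128) * T) := by
  obtain ⟨F, hF⟩ : ∃ F : Set ℝ, F = {t | A / 4 ≤ f t} := ⟨_, rfl⟩
  have hFm : MeasurableSet F := by
    rw [hF]
    exact (isClosed_le continuous_const hf).measurableSet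
  have h12 : T ≤ 2 * T := by linarith
  have hi1 : IntervalIntegrable f volume T (2 * T) := hf.intervalIntegrable _ _
  have hi2 : IntervalIntegrable (fun t => A / 4 + f t ^ 2 / (64 * A)) volume T (2 * T) :=
    Continuous.intervalIntegrable (by fun_prop) _ _
  have hi3 : IntervalIntegrable (F.indicator fun _ => 16 * A) volume T (2 * T) := by
    rw [intervalIntegrable_iff_integrableOn_Ioc_of_le h12]
    exact (integrable_const _).indicator hFm
  have h5 : ∫ t in T..(2 * T), f t ≤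
      ∫ t in T..(2 * T), ((A / 4 + f t ^ 2 / (64 * A)) + F.indicator (fun _ => 16 * A) t) := by
    refine intervalIntegral.integral_mono_on h12 hi1 (hi2.add hi3) fun t _ => ?_
    have h7 : 0 ≤ f t ^ 2 / (64 * A) := by positivity
    by_cases ht : t ∈ F
    · rw [Set.indicator_of_mem ht]
      have h6 : f t ≤ f t ^ 2 / (64 * A) + 16 * A := by
        have e : f t ^ 2 / (64 * A) + 16 * A - f t = (f t - 32 * A) ^ 2 / (64 * A) := by
          field_simp
          ring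
        have : 0 ≤ (f t - 32 * A) ^ 2 / (64 * A) := by positivity
        linarith
      linarith
    · rw [Set.indicator_of_notMem ht]
      rw [hF, Set.mem_setOf_eq, not_le] at ht
      linarith
  rw [intervalIntegral.integral_add hi2 hi3, intervalIntegral.integral_add
    (continuous_const.intervalIntegrable _ _) (Continuous.intervalIntegrable (by fun_prop) _ _),
    intervalIntegral.integral_const, smul_eq_mul, intervalIntegral.integral_div] at h5
  have h6 : ∫ t in T..(2 * T), F.indicator (fun _ => 16 * A) t ≤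
      16 * A * volume.real (Icc T (2 * T) ∩ F) := by
    rw [intervalIntegral.integral_of_le h12, integral_indicator hFm,
      Measure.restrict_restrict hFm, setIntegral_const, smul_eq_mul, mul_comm]
    apply mul_le_mul_of_nonneg_left _ (by positivity)
    apply measureReal_mono
    · intro x hx
      exact ⟨Ioc_subset_Icc_self hx.2, hx.1⟩
    · exact ((measure_mono Set.inter_subset_left).trans_lt measure_Icc_lt_top).ne
  have h7 : (∫ t in T..(2 * T), f t ^ 2) / (64 * A) ≤ T * A / 8 := by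
    rw [div_le_iff₀ (by positivity)]
    refine h4.trans (le_of_eq ?_)
    ring
  have h8 : T / 128 ≤ volume.real (Icc T (2 * T) ∩ F) := by
    have h9 : A * (T / 8) ≤ A * (16 * volume.real (Icc T (2 * T) ∩ F)) := by
      have e : (2 * T - T) * (A / 4) = T * A / 4 := by ring
      rw [e] at h5
      nlinarith
    have := le_of_mul_le_mul_left h9 hA
    linarith
  have h9 := measureReal_inter_add_sdiff (μ := (volume : Measure ℝ)) (s := Icc T (2 * T)) hFm
    (measure_Icc_lt_top.ne)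
  have e1 : {t : ℝ | t ∈ Icc T (2 * T) ∧ f t < A / 4} = Icc T (2 * T) \ F := by
    ext t
    rw [hF, Set.mem_setOf_eq, Set.mem_diff, Set.mem_setOf_eq, not_le]
  have e2 : volume.real (Icc T (2 * T)) = T := by
    rw [Real.volume_real_Icc_of_le h12]
    ring
  have hfin : volume (Icc T (2 * T) \ F) ≠ ⊤ :=
    ((measure_mono Set.diff_subset).trans_lt measure_Icc_lt_top).ne
  rw [e1, ← ENNReal.ofReal_toReal hfin]
  apply ENNReal.ofReal_le_ofReal
  have e3 : (volume (Icc T (2 * T) \ F)).toReal = volume.real (Icc T (2 * T) \ F) := rfl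
  rw [e3]
  linarith

end Pool.Agent.H225.HN
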